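import Pool.Agent.V1164.BRW.Ray

open Pool.Agent.V1164.BRW

namespace Pool.Agent.Results.MP_46e535_pr.BothInfinite

/-- **Positive answer to Q1**: an irreducible branching random walk for which `E_G` is infinite
and `F_G \ E_G` is infinite, even uncountable. -/
theorem result : ∃ μ : ℕ × ℕ → PMF (ℕ × ℕ →₀ ℕ), Irreducible μ ∧ NonSingular μ ∧
    (EG μ).Infinite ∧ (FG μ \ EG μ).Infinite ∧ ¬ (FG μ \ EG μ).Countable := by
  have h : ¬ (FG Ray.mu \ EG Ray.mu).Countable := by
    intro hc
    have h1 : FG Ray.mu ⊆ (FG Ray.mu \ EG Ray.mu) ∪ EG Ray.mu := by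
      intro z hz
      by_cases h : z ∈ EG Ray.mu
      · right; exact h
      · left; exact ⟨hz, h⟩
    exact Ray.FG_uncountable ((hc.union Ray.EG_countable).mono h1)
  exact ⟨Ray.mu, Ray.irr, Ray.nonsing, Ray.EG_infinite, fun hf => h hf.countable, h⟩

end Pool.Agent.Results.MP_46e535_pr.BothInfinite
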